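import Pool.Agent.Q25.FM.Inf

/-!
# Tame p-adic representations with infinitely many ramified primes

Let `p` be a prime, `p ^ m > 2`, and let `S` be a set of primes `l ≠ p` with `p ^ (m + 1) ∤ l - 1`.
The set `S` may be infinite.

* If every finite set `J` of at least three (at least five, if `p = 2`) primes `l ∈ S` with
  `p ^ m ∣ l - 1` satisfies one of the conditions on linking numbers of
  `MP_f68ac8_nt.TameAllRanks`, then every continuous representation
  `Gal(ℚbar/ℚ) → GL_n(O)` over a discrete valuation ring of characteristic zero and residue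
  characteristic `p`, of any dimension `n`, which is unramified outside `S` (possibly ramified at
  infinitely many primes) and trivial modulo `p ^ m` on the inertia groups, is trivial.
* In particular this holds for all `n` if `S` is sparsely linked: every nonempty finite set `J` of
  primes `l ∈ S` with `p ^ m ∣ l - 1` contains a prime which is a `p`-th power modulo all but at most
  one of the others. Every finite sparsely linked set is contained in an infinite one.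

The first step of each layer is that an open subgroup of the absolute Galois group contains almost
all inertia groups; the rest of the argument is that of `Pool/Agent/TH831/NA` (helper831).
-/

set_option autoImplicit false

open NumberField IsLocalRing

namespace Pool.Agent.Results.MP_f68ac8_nt.InfiniteRamification

/-- The representation `ρ` of the absolute Galois group of `ℚ` is unramified at the prime ideal `P`
of the ring of all algebraic integers: the inertia group at `P` acts trivially. -/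
def UnramifiedAt {n : ℕ} {A : Type} [CommRing A] (ρ : Gal(AlgebraicClosure ℚ/ℚ) →* GL (Fin n) A)
    (P : Ideal (𝓞 (AlgebraicClosure ℚ))) : Prop :=
  ∀ τ : Gal(AlgebraicClosure ℚ/ℚ), (∀ x : 𝓞 (AlgebraicClosure ℚ), τ • x - x ∈ P) → ρ τ = 1

/-- `ρ` is unramified at all primes that do not lie above a prime number in `S` (in particular at
the primes above `p`, if `p ∉ S`). -/
def UnramifiedOutside {n : ℕ} {A : Type} [CommRing A] (S : Set ℕ)
    (ρ : Gal(AlgebraicClosure ℚ/ℚ) →* GL (Fin n) A) : Prop :=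
  ∀ P : Ideal (𝓞 (AlgebraicClosure ℚ)), P.IsMaximal →
    (∀ l ∈ S, (l : 𝓞 (AlgebraicClosure ℚ)) ∉ P) → UnramifiedAt ρ P

/-- The inertia groups at the primes which lie above a prime number in `S` act trivially modulo
`p ^ m`. -/
def InertiaTrivialMod {n : ℕ} {A : Type} [CommRing A] (p m : ℕ) (S : Set ℕ)
    (ρ : Gal(AlgebraicClosure ℚ/ℚ) →* GL (Fin n) A) : Prop :=
  ∀ P : Ideal (𝓞 (AlgebraicClosure ℚ)), P.IsMaximal →
    (∃ l ∈ S, (l : 𝓞 (AlgebraicClosure ℚ)) ∈ P) →
    ∀ τ : Gal(AlgebraicClosure ℚ/ℚ), (∀ x : 𝓞 (AlgebraicClosure ℚ), τ • x - x ∈ P) →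
      ∀ i j, (p : A) ^ m ∣ ((ρ τ : Matrix (Fin n) (Fin n) A) - 1) i j

/-- The linking number `λ l j` of the distinct primes `l` and `j`: the value of the homomorphism
`χ j : (ℤ/j)ˣ → ℤ/p` at the class of `l` (and `0` if `j` divides `l`, in particular if `l = j`). -/
noncomputable def linking {p : ℕ} (χ : ∀ j : ℕ, (ZMod j)ˣ →* Multiplicative (ZMod p))
    (l j : ℕ) : ZMod p :=
  open Classical in if h : Nat.Coprime l j then
    Multiplicative.toAdd (χ j (ZMod.unitOfCoprime l h)) else 0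

/-- The class `u l` of `(l - 1) / p ^ m` modulo `p`. -/
def level (p m l : ℕ) : ZMod p := (((l - 1) / p ^ m : ℕ) : ZMod p)

/-- The weights `w` symmetrise the linking numbers of the primes in `J`. -/
def Symmetrises {p : ℕ} (χ : ∀ j : ℕ, (ZMod j)ˣ →* Multiplicative (ZMod p)) (J : Finset ℕ)
    (w : ℕ → ZMod p) : Prop :=
  ∀ l ∈ J, ∀ j ∈ J, l ≠ j → w l * linking χ l j = w j * linking χ j l

/-- The shifted linking number `λ l j - t l * (w j * u j)`. -/
noncomputable def shifted {p : ℕ} (m : ℕ) (χ : ∀ j : ℕ, (ZMod j)ˣ →* Multiplicative (ZMod p))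
    (w t : ℕ → ZMod p) (l j : ℕ) : ZMod p :=
  linking χ l j - t l * (w j * level p m j)

/-- For some `l ∈ J` the shifted linking numbers of `l` and `j` vanish for all other `j ∈ J` but
at most one. -/
def SparseRow {p : ℕ} (m : ℕ) (χ : ∀ j : ℕ, (ZMod j)ˣ →* Multiplicative (ZMod p))
    (w t : ℕ → ZMod p) (J : Finset ℕ) : Prop :=
  ∃ l ∈ J, {j : ℕ | j ∈ J ∧ j ≠ l ∧ shifted m χ w t l j ≠ 0}.Subsingleton

/-- There is a nonempty proper subset `K` of `J`, on which `t` is a multiple of `u`, such that the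
shifted linking numbers of all `l ∈ K` and `j ∈ J \ K` vanish. -/
def ClosedSubset {p : ℕ} (m : ℕ) (χ : ∀ j : ℕ, (ZMod j)ˣ →* Multiplicative (ZMod p))
    (w t : ℕ → ZMod p) (J : Finset ℕ) : Prop :=
  ∃ K : Finset ℕ, K ⊂ J ∧ K.Nonempty ∧ (∃ s : ZMod p, ∀ l ∈ K, t l = s * level p m l) ∧
    ∀ l ∈ K, ∀ j ∈ J, j ∉ K → shifted m χ w t l j = 0

/-- The shifted linking numbers are of the form `a l * c j` for all `l ≠ j` in `J`. -/
def RankOne {p : ℕ} (m : ℕ) (χ : ∀ j : ℕ, (ZMod j)ˣ →* Multiplicative (ZMod p))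
    (w t : ℕ → ZMod p) (J : Finset ℕ) : Prop :=
  ∃ a c : ℕ → ZMod p, ∀ l ∈ J, ∀ j ∈ J, l ≠ j → shifted m χ w t l j = a l * c j

/-- `J = {a, b, c}` and `u b * λ a c + u a * λ b c ≠ 0`. -/
def GoodTriple {p : ℕ} (m : ℕ) (χ : ∀ j : ℕ, (ZMod j)ˣ →* Multiplicative (ZMod p))
    (J : Finset ℕ) : Prop :=
  ∃ a b c : ℕ, a ≠ b ∧ a ≠ c ∧ b ≠ c ∧ J = {a, b, c} ∧
    level p m b * linking χ a c + level p m a * linking χ b c ≠ 0

/-- Over no field of characteristic `p` there are nonzero nilpotent `n × n` matrices `M l`, one for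
each `l ∈ J`, such that the commutator of `∑ j ∈ J, λ l j • M j` and `M l` is `u l • M l` for all
`l ∈ J`. -/
def NoTuple {p : ℕ} (n m : ℕ) (χ : ∀ j : ℕ, (ZMod j)ˣ →* Multiplicative (ZMod p))
    (J : Finset ℕ) : Prop :=
  ∀ (K : Type) [Field K] [Algebra (ZMod p) K] (M : ℕ → Matrix (Fin n) (Fin n) K),
    (∀ l ∈ J, IsNilpotent (M l) ∧ M l ≠ 0) →
    (∀ l ∈ J, (∑ j ∈ J, linking χ l j • M j) * M l - M l * (∑ j ∈ J, linking χ l j • M j) =
      level p m l • M l) → False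

/-- One of the conditions above holds for `J`. -/
def Admissible {p : ℕ} (n m : ℕ) (χ : ∀ j : ℕ, (ZMod j)ˣ →* Multiplicative (ZMod p))
    (J : Finset ℕ) : Prop :=
  (∃ w t : ℕ → ZMod p, Symmetrises χ J w ∧
    (SparseRow m χ w t J ∨ ClosedSubset m χ w t J ∨ RankOne m χ w t J)) ∨
  GoodTriple m χ J ∨ NoTuple n m χ J

/-- Every continuous representation of dimension `n` over a discrete valuation ring of
characteristic zero and residue characteristic `p`, which is unramified outside `S` and trivial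
modulo `p ^ m` on the inertia groups at the primes in `S`, is trivial. -/
def AllTrivial (p m n : ℕ) (S : Set ℕ) : Prop :=
  ∀ (A : Type) [CommRing A] [IsDomain A] [IsDiscreteValuationRing A] [CharZero A]
    [TopologicalSpace A], IsAdic (maximalIdeal A) → (p : A) ∈ maximalIdeal A →
    ∀ ρ : Gal(AlgebraicClosure ℚ/ℚ) →* GL (Fin n) A, Continuous ρ →
      UnramifiedOutside S ρ → InertiaTrivialMod p m S ρ → ∀ g, ρ g = 1

/-- `l` is a `p`-th power modulo `j`. -/
def IsPowerMod (p l j : ℕ) : Prop := ∃ x : ZMod j, x ^ p = (l : ZMod j)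

/-- Every nonempty finite set `J` of elements `l` of `S` with `p ^ m ∣ l - 1` contains an `l` such
that at most one of the other elements `j` of `J` has the property that `l` is not a `p`-th power
modulo `j`. -/
def SparselyLinked (p m : ℕ) (S : Set ℕ) : Prop :=
  ∀ J : Finset ℕ, (∀ l ∈ J, l ∈ S ∧ p ^ m ∣ l - 1) → J.Nonempty →
    ∃ l ∈ J, {j : ℕ | j ∈ J ∧ j ≠ l ∧ ¬ IsPowerMod p l j}.Subsingleton

theorem eq_one_of_ne_zero : ∀ z : ZMod 2, z ≠ 0 → z = 1 := by decide

theorem noSol (p : ℕ) [Fact p.Prime] (m n : ℕ) (hm : 2 < p ^ m) (S : Set ℕ)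
    (hS : ∀ l ∈ S, l.Prime ∧ l ≠ p ∧ ¬ p ^ (m + 1) ∣ l - 1)
    (χ : ∀ j : ℕ, (ZMod j)ˣ →* Multiplicative (ZMod p))
    (hχ : ∀ l ∈ S, p ∣ l - 1 → ∃ x, χ l x ≠ 1)
    (hJ' : ∀ J : Finset ℕ, (∀ l ∈ J, l ∈ S ∧ p ^ m ∣ l - 1) → 3 ≤ J.card →
      (p = 2 → 5 ≤ J.card) → Admissible n m χ J)
    (T0 : Finset ℕ) (hT0mem : ∀ l ∈ T0, l ∈ S ∧ p ^ m ∣ l - 1) (hT0 : T0.Nonempty) :
    TH831.NA.NoSol n (W569.TG.lk χ) (fun l => (((l - 1) / p ^ m : ℕ) : ZMod p)) T0 := by
  classical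
  have hp : p.Prime := Fact.out
  have hm1 : 1 ≤ m := by
    rcases Nat.eq_zero_or_pos m with h | h
    · rw [h, pow_zero] at hm
      omega
    · exact h
  have hdvd : ∀ l, p ^ m ∣ l - 1 → p ∣ l - 1 := fun l h => (dvd_pow_self p (by omega)).trans h
  have hJ : ∀ J : Finset ℕ, (∀ l ∈ J, l ∈ S) → (∀ l ∈ J, p ^ m ∣ l - 1) → 3 ≤ J.card →
      (p = 2 → 5 ≤ J.card) → Admissible n m χ J := fun J h1 h2 =>
    hJ' J fun l hl => ⟨h1 l hl, h2 l hl⟩
  have hlk : ∀ l j, linking χ l j = W569.TG.lk χ l j := fun l j => rfl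
  have hu : ∀ l ∈ T0, (((l - 1) / p ^ m : ℕ) : ZMod p) ≠ 0 := by
    intro l hl
    obtain ⟨hlS, hlm⟩ := hT0mem l hl
    rw [Ne, ZMod.natCast_eq_zero_iff]
    rintro ⟨d, hd⟩
    apply (hS l hlS).2.2
    refine ⟨d, ?_⟩
    rw [pow_succ, mul_assoc, ← hd, Nat.mul_div_cancel' hlm]
  -- no solutions
  have hNo : ∀ J ⊆ T0, J.Nonempty → TH831.NA.NoSol n (W569.TG.lk χ)
      (fun l => (((l - 1) / p ^ m : ℕ) : ZMod p)) J := by
    refine TH831.NA.noSol_ind fun J hJT hJne ih => ?_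
    have huJ : ∀ l ∈ J, (fun l => (((l - 1) / p ^ m : ℕ) : ZMod p)) l ≠ 0 := fun l hl =>
      hu l (hJT hl)
    by_cases h3 : 3 ≤ J.card
    · by_cases h5 : p = 2 → 5 ≤ J.card
      · rcases hJ J (fun l hl => (hT0mem l (hJT hl)).1) (fun l hl => (hT0mem l (hJT hl)).2) h3 h5
          with ⟨w, t, hw, h | h | h⟩ | h | h
        · have hsym : ∀ l ∈ J, ∀ j ∈ J, w l * W569.TG.lk χ l j = w j * W569.TG.lk χ j l := by
            intro l hl j hj
            by_cases hlj : l = j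
            · rw [hlj]
            · exact hw l hl j hj hlj
          obtain ⟨l, hl, hs⟩ := h
          exact TH831.NA.noSol_row huJ hsym (t := t) hl fun i hi j hj =>
            hs ⟨hi.1, hi.2.1, fun h => hi.2.2 (sub_eq_zero.1 h)⟩
              ⟨hj.1, hj.2.1, fun h => hj.2.2 (sub_eq_zero.1 h)⟩
        · have hsym : ∀ l ∈ J, ∀ j ∈ J, w l * W569.TG.lk χ l j = w j * W569.TG.lk χ j l := by
            intro l hl j hj
            by_cases hlj : l = j
            · rw [hlj]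
            · exact hw l hl j hj hlj
          obtain ⟨K, hK, hKne, ⟨s, hs⟩, hKJ⟩ := h
          refine TH831.NA.noSol_sub (s := s) hK.1 hsym (fun l hl j hj hjK => ?_) (ih K hK hKne)
          have h1 := sub_eq_zero.1 (hKJ l hl j hj hjK)
          rw [hs l hl] at h1
          exact h1
        · have hsym : ∀ l ∈ J, ∀ j ∈ J, w l * W569.TG.lk χ l j = w j * W569.TG.lk χ j l := by
            intro l hl j hj
            by_cases hlj : l = j
            · rw [hlj]
            · exact hw l hl j hj hlj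
          obtain ⟨a, c, hac⟩ := h
          refine TH831.NA.noSol_rank huJ hJne hsym (t := t) (a := a) (c := c)
            fun l hl j hj hjl => ?_
          have h1 := hac l hl j hj (Ne.symm hjl)
          exact sub_eq_iff_eq_add'.1 h1
        · obtain ⟨a, b, c, hab, hac, hbc, hJ3, hne⟩ := h
          exact TH831.NA.noSol_triple huJ hab hac hbc hJ3 hne
        · intro K iK iA M hM hrel
          refine h K M hM fun l hl => ?_
          have h1 := hrel l hl
          rw [Finset.sum_mul, Finset.mul_sum, ← Finset.sum_sub_distrib]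
          refine Eq.trans (Finset.sum_congr rfl fun j _ => ?_) h1
          rw [smul_mul_assoc, mul_smul_comm, ← smul_sub, hlk]
      · -- `p = 2` and at most four primes
        push Not at h5
        obtain ⟨rfl, h5⟩ := h5
        have hm2 : 2 ≤ m := by
          by_contra hcon
          have h1 : m = 1 := by omega
          rw [h1] at hm
          norm_num at hm
        have hz2 := eq_one_of_ne_zero
        have hker : ∀ l ∈ T0, ∀ x, χ l x = 1 ↔ x ^ ((l - 1) / 2) = 1 := fun l hl x =>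
          TH831.NA.char_ker (hS l (hT0mem l hl).1).1 (hdvd l (hT0mem l hl).2)
            (hχ l (hT0mem l hl).1 (hdvd l (hT0mem l hl).2)) x
        have hlk0 : ∀ l ∈ T0, ∀ j ∈ T0, j ≠ l →
            (W569.TG.lk χ l j = 0 ↔ IsSquare (l : ZMod j)) := by
          intro l hl j hj hjl
          rw [TH146.FM.lk_eq_zero_iff (hS j (hT0mem j hj).1).1 (hdvd j (hT0mem j hj).2)
            (hS l (hT0mem l hl).1).1 (Ne.symm hjl) (hker j hj), isSquare_iff_exists_sq]
          exact ⟨fun ⟨y, hy⟩ => ⟨y, hy.symm⟩, fun ⟨y, hy⟩ => ⟨y, hy.symm⟩⟩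
        have hmod4 : ∀ l ∈ T0, l % 4 = 1 := by
          intro l hl
          obtain ⟨hlS, hlm⟩ := hT0mem l hl
          have h4 : 4 ∣ l - 1 := by
            have : (2 : ℕ) ^ 2 ∣ 2 ^ m := pow_dvd_pow 2 hm2
            exact this.trans hlm
          have := (hS l hlS).1.two_le
          omega
        have hsym0 : ∀ l ∈ J, ∀ j ∈ J, W569.TG.lk χ l j = W569.TG.lk χ j l := by
          intro l hl j hj
          by_cases hjl : j = l
          · rw [hjl]
          have i1 : Fact l.Prime := ⟨(hS l (hT0mem l (hJT hl)).1).1⟩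
          have i2 : Fact j.Prime := ⟨(hS j (hT0mem j (hJT hj)).1).1⟩
          have h1 := hlk0 l (hJT hl) j (hJT hj) hjl
          have h2 := hlk0 j (hJT hj) l (hJT hl) (Ne.symm hjl)
          rw [ZMod.exists_sq_eq_prime_iff_of_mod_four_eq_one (hmod4 j (hJT hj))
            (hS l (hT0mem l (hJT hl)).1).2.1, ← h2] at h1
          by_cases h0 : W569.TG.lk χ l j = 0
          · rw [h0, h1.1 h0]
          · rw [hz2 _ h0, hz2 _ fun h => h0 (h1.2 h)]
        have hsym : ∀ l ∈ J, ∀ j ∈ J, (fun _ : ℕ => (1 : ZMod 2)) l * W569.TG.lk χ l j =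
            (fun _ : ℕ => (1 : ZMod 2)) j * W569.TG.lk χ j l := by
          intro l hl j hj
          rw [hsym0 l hl j hj]
        have hu1 : ∀ l ∈ J, (((l - 1) / 2 ^ m : ℕ) : ZMod 2) = 1 := fun l hl =>
          hz2 _ (huJ l hl)
        obtain ⟨l, hl⟩ := hJne
        set X := (J.erase l).filter (fun j => W569.TG.lk χ l j = 1) with hX
        set Y := (J.erase l).filter (fun j => ¬ W569.TG.lk χ l j = 1) with hY
        have hcard : X.card + Y.card = J.card - 1 := by
          rw [hX, hY, Finset.card_filter_add_card_filter_not, Finset.card_erase_of_mem hl]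
        have h1 : X.card ≤ 1 ∨ Y.card ≤ 1 := by omega
        rcases h1 with h1 | h1
        · refine TH831.NA.noSol_row huJ hsym (t := fun _ => 0) hl ?_
          rintro i ⟨hi, hil, hi'⟩ j ⟨hj, hjl, hj'⟩
          rw [zero_mul] at hi' hj'
          exact Finset.card_le_one.1 h1 i
            (Finset.mem_filter.2 ⟨Finset.mem_erase.2 ⟨hil, hi⟩, hz2 _ hi'⟩) j
            (Finset.mem_filter.2 ⟨Finset.mem_erase.2 ⟨hjl, hj⟩, hz2 _ hj'⟩)
        · refine TH831.NA.noSol_row huJ hsym (t := fun _ => 1) hl ?_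
          rintro i ⟨hi, hil, hi'⟩ j ⟨hj, hjl, hj'⟩
          simp only [hu1 i hi, hu1 j hj, mul_one] at hi' hj'
          exact Finset.card_le_one.1 h1 i
            (Finset.mem_filter.2 ⟨Finset.mem_erase.2 ⟨hil, hi⟩, hi'⟩) j
            (Finset.mem_filter.2 ⟨Finset.mem_erase.2 ⟨hjl, hj⟩, hj'⟩)
    · -- at most two primes
      obtain ⟨l, hl⟩ := hJne
      refine TH831.NA.noSol_row huJ (w := fun _ => 0) (t := fun _ => 0) (fun i _ j _ => ?_) hl ?_
      · rw [zero_mul, zero_mul]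
      · rintro i ⟨hi, hil, -⟩ j ⟨hj, hjl, -⟩
        by_contra hij
        apply h3
        have h4 : ({l, i, j} : Finset ℕ).card = 3 := by
          rw [Finset.card_insert_of_notMem (by simp [Ne.symm hil, Ne.symm hjl]),
            Finset.card_insert_of_notMem (by simp [hij]), Finset.card_singleton]
        rw [← h4]
        apply Finset.card_le_card
        intro x hx
        simp only [Finset.mem_insert, Finset.mem_singleton] at hx
        rcases hx with rfl | rfl | rfl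
        · exact hl
        · exact hi
        · exact hj
  exact hNo T0 (Finset.Subset.refl _) hT0

theorem main1 (p : ℕ) [Fact p.Prime] (m n : ℕ) (hm : 2 < p ^ m) (S : Set ℕ)
    (hS : ∀ l ∈ S, l.Prime ∧ l ≠ p ∧ ¬ p ^ (m + 1) ∣ l - 1)
    (χ : ∀ j : ℕ, (ZMod j)ˣ →* Multiplicative (ZMod p))
    (hχ : ∀ l ∈ S, p ∣ l - 1 → ∃ x, χ l x ≠ 1)
    (hJ : ∀ J : Finset ℕ, (∀ l ∈ J, l ∈ S ∧ p ^ m ∣ l - 1) → 3 ≤ J.card →
      (p = 2 → 5 ≤ J.card) → Admissible n m χ J) : AllTrivial p m n S := by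
  classical
  have hp : p.Prime := Fact.out
  intro A _ _ _ _ _ hA hpA ρ hρ hur hI
  have hp0 : ∀ k : ℕ, (p : A) ^ k ≠ 0 := fun k => pow_ne_zero k (Nat.cast_ne_zero.2 hp.ne_zero)
  have hcts := TH831.NA.cts_memN hA hρ
  have hcong : ∀ g i j, (p : A) ^ m ∣ ((ρ g : Matrix (Fin n) (Fin n) A) - 1) i j := by
    intro g i j
    rw [← Ideal.mem_span_singleton]
    refine TH831.NA.cong_of_inertia hcts (Ideal.span {(p : A) ^ m}) (fun P hP τ hτ => ?_) g i j
    by_cases hSP : ∃ l ∈ S, (l : 𝓞 (AlgebraicClosure ℚ)) ∈ P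
    · exact fun i j => Ideal.mem_span_singleton.2 (hI P hP hSP τ hτ i j)
    · intro i j
      have h1 : ρ τ = 1 := hur P hP (fun l hl hlP => hSP ⟨l, hl, hlP⟩) τ hτ
      have h2 : ((ρ τ : Matrix (Fin n) (Fin n) A) - 1) i j ∈ Ideal.span {(p : A) ^ m} := by
        rw [h1, Units.val_one, sub_self]
        exact Ideal.zero_mem _
      exact h2
  have hcong' : ∀ g, ∃ α : Matrix (Fin n) (Fin n) A,
      (ρ g : Matrix (Fin n) (Fin n) A) = 1 + ((p : A) ^ m) • α := by
    intro g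
    choose b hb using hcong g
    refine ⟨Matrix.of b, ?_⟩
    rw [← sub_eq_iff_eq_add']
    ext i j
    rw [hb, Matrix.smul_apply, Matrix.of_apply, smul_eq_mul]
  have hreg : ∀ a : A, (p : A) * a = 0 → a = 0 := fun a ha =>
    (mul_eq_zero.1 ha).resolve_left (Nat.cast_ne_zero.2 hp.ne_zero)
  have hprim : ∀ k : ℕ, ∃ N : ℕ, maximalIdeal A ^ N ≤ Ideal.span {(p : A) ^ k} := by
    intro k
    obtain ⟨N, hN⟩ := exists_maximalIdeal_pow_eq_of_principal A
      (IsPrincipalIdealRing.principal (maximalIdeal A)) (Ideal.span {(p : A) ^ k})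
      (by rw [Ne, Ideal.span_singleton_eq_bot]; exact hp0 k)
    exact ⟨N, hN.ge⟩
  exact Pool.Agent.Q25.FM.trivInf hpA hreg hprim hm hS hχ
    (fun J hJ1 hJ2 => noSol p m n hm S hS χ hχ hJ J hJ1 hJ2) hcts
    (fun P hP hPS τ hτ => hur P hP hPS τ hτ) hcong'

/-- nontrivial characters -/
theorem exists_chi (p : ℕ) [Fact p.Prime] (j : ℕ) (hj : j.Prime) (hpj : p ∣ j - 1) :
    ∃ χ : (ZMod j)ˣ →* Multiplicative (ZMod p), ∃ x, χ x ≠ 1 := by
  have : Fact j.Prime := ⟨hj⟩
  have hp : p.Prime := Fact.out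
  have hcard : p ∣ Nat.card (ZMod j)ˣ := by
    rwa [Nat.card_eq_fintype_card, ZMod.card_units_eq_totient, Nat.totient_prime hj]
  let e := zmodCyclicMulEquiv (inferInstance : IsCyclic (ZMod j)ˣ)
  let f : Multiplicative (ZMod (Nat.card (ZMod j)ˣ)) →* Multiplicative (ZMod p) :=
    AddMonoidHom.toMultiplicative (ZMod.castHom hcard (ZMod p)).toAddMonoidHom
  refine ⟨f.comp e.symm.toMonoidHom, e (Multiplicative.ofAdd 1), ?_⟩
  intro h
  have h1 : f (Multiplicative.ofAdd 1) = 1 := by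
    rw [← h]
    show _ = f (e.symm (e (Multiplicative.ofAdd 1)))
    rw [MulEquiv.symm_apply_apply]
  have h2 : (ZMod.castHom hcard (ZMod p)) 1 = 0 := h1
  rw [map_one] at h2
  exact one_ne_zero h2

/-- a `p`-th power has linking number zero -/
theorem linking_zero (p : ℕ) [Fact p.Prime] (χ : ∀ j : ℕ, (ZMod j)ˣ →* Multiplicative (ZMod p))
    {l j : ℕ} (h : IsPowerMod p l j) : linking χ l j = 0 := by
  classical
  have hp : p.Prime := Fact.out
  unfold linking
  split_ifs with hc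
  · obtain ⟨x, hx⟩ := h
    have hu : IsUnit (x ^ p) := by
      rw [hx]
      exact (ZMod.isUnit_iff_coprime l j).2 hc
    have hxu : IsUnit x := (isUnit_pow_iff hp.ne_zero).1 hu
    obtain ⟨y, rfl⟩ := hxu
    have h1 : ZMod.unitOfCoprime l hc = y ^ p := by
      apply Units.ext
      rw [ZMod.coe_unitOfCoprime, Units.val_pow_eq_pow_val, hx]
    rw [h1, map_pow, toAdd_pow, nsmul_eq_mul, ZMod.natCast_self, zero_mul]
  · rfl

theorem main2 (p : ℕ) [Fact p.Prime] (m n : ℕ) (hm : 2 < p ^ m) (S : Set ℕ)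
    (hS : ∀ l ∈ S, l.Prime ∧ l ≠ p ∧ ¬ p ^ (m + 1) ∣ l - 1)
    (hlink : SparselyLinked p m S) : AllTrivial p m n S := by
  classical
  have h1 : ∀ j : ℕ, ∃ χ : (ZMod j)ˣ →* Multiplicative (ZMod p),
      j ∈ S → p ∣ j - 1 → ∃ x, χ x ≠ 1 := by
    intro j
    by_cases hj : j ∈ S ∧ p ∣ j - 1
    · obtain ⟨χ, hχ⟩ := exists_chi p j (hS j hj.1).1 hj.2
      exact ⟨χ, fun _ _ => hχ⟩
    · exact ⟨1, fun h1 h2 => absurd ⟨h1, h2⟩ hj⟩
  choose χ hχ using h1
  refine main1 p m n hm S hS χ (fun l hl hpl => hχ l hl hpl) fun J hJ h3 _ => ?_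
  obtain ⟨l, hl, hsub⟩ := hlink J hJ (Finset.card_pos.1 (by omega))
  refine Or.inl ⟨fun _ => 0, fun _ => 0, fun _ _ _ _ _ => by rw [zero_mul, zero_mul],
    Or.inl ⟨l, hl, fun i hi j hj => ?_⟩⟩
  have key : ∀ q, shifted m χ (fun _ => 0) (fun _ => 0) l q ≠ 0 → ¬ IsPowerMod p l q := by
    intro q hq h
    apply hq
    rw [shifted, linking_zero p χ h, zero_mul, sub_zero]
  exact hsub ⟨hi.1, hi.2.1, key i hi.2.2⟩ ⟨hj.1, hj.2.1, key j hj.2.2⟩

theorem cop_one_add {a b : ℕ} (h : a ∣ b) : Nat.Coprime (1 + b) a := by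
  obtain ⟨c, rfl⟩ := h
  rw [Nat.coprime_add_mul_left_left]
  exact Nat.coprime_one_left a

/-- a further prime -/
theorem exists_next (p : ℕ) [Fact p.Prime] (m : ℕ) (hm : 2 < p ^ m) (F : Finset ℕ)
    (hF : ∀ l ∈ F, l.Prime ∧ l ≠ p) (B : ℕ) :
    ∃ l : ℕ, l.Prime ∧ B < l ∧ p ^ m ∣ l - 1 ∧ ¬ p ^ (m + 1) ∣ l - 1 ∧ ∀ j ∈ F, j ∣ l - 1 := by
  classical
  have hp : p.Prime := Fact.out
  have hm1 : 1 ≤ m := by
    rcases Nat.eq_zero_or_pos m with h | h
    · rw [h, pow_zero] at hm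
      omega
    · exact h
  set M := ∏ j ∈ F, j with hM
  have hMpos : 0 < M := Finset.prod_pos fun j hj => (hF j hj).1.pos
  have hpM : ¬ p ∣ M := by
    intro h
    obtain ⟨j, hj, hpj⟩ := (Prime.dvd_finsetProd_iff hp.prime _).1 h
    exact (hF j hj).2 ((Nat.prime_dvd_prime_iff_eq hp (hF j hj).1).1 hpj).symm
  set Q := p ^ (m + 1) * M with hQ
  have hQpos : 0 < Q := Nat.mul_pos (pow_pos hp.pos _) hMpos
  have : NeZero Q := ⟨hQpos.ne'⟩
  have hcop : Nat.Coprime (1 + p ^ m * M) Q := by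
    refine Nat.Coprime.mul_right (Nat.Coprime.pow_right _ (cop_one_add ?_)) (cop_one_add ?_)
    · exact Dvd.dvd.mul_right (dvd_pow_self p (by omega)) M
    · exact Dvd.intro_left _ rfl
  obtain ⟨l, hl, hlp, hlQ⟩ := Nat.forall_exists_prime_gt_and_eq_mod
    ((ZMod.isUnit_iff_coprime (1 + p ^ m * M) Q).2 hcop) (B + (1 + p ^ m * M))
  have h1 : 1 + p ^ m * M ≡ l [MOD Q] := ((ZMod.natCast_eq_natCast_iff _ _ _).1 hlQ).symm
  obtain ⟨t, ht⟩ := (Nat.modEq_iff_dvd' (by omega)).1 h1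
  have h2 : l - 1 = p ^ m * (M * (1 + p * t)) := by
    have h3 : l - 1 = p ^ m * M + Q * t := by omega
    rw [h3, hQ, pow_succ]
    ring
  refine ⟨l, hlp, by omega, h2 ▸ Dvd.intro _ rfl, fun h => ?_, fun j hj => ?_⟩
  · rw [h2, pow_succ, Nat.mul_dvd_mul_iff_left (pow_pos hp.pos m), hp.dvd_mul] at h
    rcases h with h | h
    · exact hpM h
    · have h4 : p ∣ 1 := (Nat.dvd_add_left (Dvd.intro t rfl)).1 h
      exact hp.one_lt.ne' (Nat.dvd_one.1 h4)
  · rw [h2]
    exact Dvd.dvd.mul_left (Dvd.dvd.mul_right (Finset.dvd_prod_of_mem _ hj) _) _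

/-- every finite sparsely linked set is contained in an infinite one -/
theorem extend (p : ℕ) [Fact p.Prime] (m : ℕ) (hm : 2 < p ^ m) (S0 : Finset ℕ)
    (hS0 : ∀ l ∈ S0, l.Prime ∧ l ≠ p ∧ ¬ p ^ (m + 1) ∣ l - 1)
    (hlink : SparselyLinked p m (S0 : Set ℕ)) :
    ∃ S : Set ℕ, (S0 : Set ℕ) ⊆ S ∧ {l | l ∈ S ∧ p ^ m ∣ l - 1}.Infinite ∧
      (∀ l ∈ S, l.Prime ∧ l ≠ p ∧ ¬ p ^ (m + 1) ∣ l - 1) ∧ SparselyLinked p m S := by
  classical
  let St := {F : Finset ℕ // ∀ l ∈ F, l.Prime ∧ l ≠ p ∧ ¬ p ^ (m + 1) ∣ l - 1}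
  have hnx : ∀ F : St, ∃ l : ℕ, l.Prime ∧ p + F.1.sup id < l ∧ p ^ m ∣ l - 1 ∧
      ¬ p ^ (m + 1) ∣ l - 1 ∧ ∀ j ∈ F.1, j ∣ l - 1 := fun F =>
    exists_next p m hm F.1 (fun l hl => ⟨(F.2 l hl).1, (F.2 l hl).2.1⟩) _
  choose nx h1 h2 h3 h4 h5 using hnx
  let nxt : St → St := fun F => ⟨insert (nx F) F.1, fun l hl => by
    rcases Finset.mem_insert.1 hl with rfl | hl
    · exact ⟨h1 F, by have := h2 F; omega, h4 F⟩
    · exact F.2 l hl⟩
  let F : ℕ → St := fun k => nxt^[k] ⟨S0, hS0⟩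
  have hF0 : (F 0).1 = S0 := rfl
  have hFs : ∀ k, (F (k + 1)).1 = insert (nx (F k)) (F k).1 := by
    intro k
    show (nxt^[k + 1] ⟨S0, hS0⟩).1 = _
    rw [Function.iterate_succ_apply']
  have hmono : ∀ i k, i ≤ k → (F i).1 ⊆ (F k).1 := by
    intro i k hik
    induction k, hik using Nat.le_induction with
    | base => exact Finset.Subset.refl _
    | succ k _ ih =>
      rw [hFs]
      exact ih.trans (Finset.subset_insert _ _)
  have hcases : ∀ k, ∀ l ∈ (F k).1, l ∈ S0 ∨ ∃ r < k, l = nx (F r) := by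
    intro k
    induction k with
    | zero => exact fun l hl => Or.inl hl
    | succ k ih =>
      intro l hl
      rw [hFs] at hl
      rcases Finset.mem_insert.1 hl with rfl | hl
      · exact Or.inr ⟨k, Nat.lt_succ_self k, rfl⟩
      · rcases ih l hl with h | ⟨r, hr, h⟩
        · exact Or.inl h
        · exact Or.inr ⟨r, by omega, h⟩
  have hlt : ∀ k, ∀ l ∈ (F k).1, l < nx (F k) := by
    intro k l hl
    have h6 := h2 (F k)
    have h7 : l ≤ (F k).1.sup id := Finset.le_sup (f := id) hl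
    omega
  have hmem : ∀ k, nx (F k) ∈ (F (k + 1)).1 := fun k => by
    rw [hFs]
    exact Finset.mem_insert_self _ _
  have hmonoN : ∀ r k, r < k → nx (F r) < nx (F k) := fun r k hrk =>
    hlt k _ (hmono (r + 1) k hrk (hmem r))
  refine ⟨{l | ∃ k, l ∈ (F k).1}, fun l hl => ⟨0, hl⟩, ?_, ?_, ?_⟩
  · refine Set.infinite_of_injective_forall_mem (f := fun k => nx (F k)) ?_ fun k =>
      ⟨⟨k + 1, hmem k⟩, h3 (F k)⟩
    intro a b hab
    rcases lt_trichotomy a b with h | h | h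
    · exact absurd hab (hmonoN a b h).ne
    · exact h
    · exact absurd hab (hmonoN b a h).ne'
  · rintro l ⟨k, hl⟩
    exact (F k).2 l hl
  · intro J hJ hJne
    have hl := J.max'_mem hJne
    set l := J.max' hJne with hldef
    obtain ⟨⟨k, hk⟩, -⟩ := hJ l hl
    rcases hcases k l hk with hlS | ⟨r, -, hr⟩
    · refine hlink J (fun j hj => ⟨?_, (hJ j hj).2⟩) hJne
      obtain ⟨⟨i, hi⟩, -⟩ := hJ j hj
      rcases hcases i j hi with h | ⟨r, -, hr⟩
      · exact h
      · have h6 : l < j := hr ▸ hlt r l (hmono 0 r (Nat.zero_le r) hlS)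
        exact absurd (J.le_max' j hj) (not_le.2 h6)
    · refine ⟨l, hl, ?_⟩
      rintro j ⟨hj, hjl, hnot⟩
      exfalso
      apply hnot
      have hjl' : j < l := lt_of_le_of_ne (J.le_max' j hj) hjl
      have hjF : j ∈ (F r).1 := by
        obtain ⟨⟨i, hi⟩, -⟩ := hJ j hj
        rcases hcases i j hi with h | ⟨r', -, hr'⟩
        · exact hmono 0 r (Nat.zero_le r) h
        · rcases lt_or_ge r' r with h | h
          · exact hmono (r' + 1) r h (hr' ▸ hmem r')
          · exfalso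
            rcases Nat.eq_or_lt_of_le h with h | h
            · rw [← h, ← hr] at hr'
              exact hjl hr'
            · have := hmonoN r r' h
              rw [← hr, ← hr'] at this
              omega
      have hd : j ∣ l - 1 := hr ▸ h5 (F r) j hjF
      refine ⟨1, ?_⟩
      have hl1 : 1 ≤ l := by omega
      have h8 : l = (l - 1) + 1 := by omega
      rw [one_pow, h8, Nat.cast_add, (ZMod.natCast_eq_zero_iff (l - 1) j).2 hd, zero_add,
        Nat.cast_one]

theorem result :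
    (∀ (p : ℕ) [Fact p.Prime] (m n : ℕ), 2 < p ^ m → ∀ S : Set ℕ,
      (∀ l ∈ S, l.Prime ∧ l ≠ p ∧ ¬ p ^ (m + 1) ∣ l - 1) →
      ∀ χ : ∀ j : ℕ, (ZMod j)ˣ →* Multiplicative (ZMod p),
      (∀ l ∈ S, p ∣ l - 1 → ∃ x, χ l x ≠ 1) →
      (∀ J : Finset ℕ, (∀ l ∈ J, l ∈ S ∧ p ^ m ∣ l - 1) → 3 ≤ J.card →
        (p = 2 → 5 ≤ J.card) → Admissible n m χ J) → AllTrivial p m n S) ∧
    (∀ (p : ℕ) [Fact p.Prime] (m : ℕ), 2 < p ^ m → ∀ S0 : Finset ℕ,
      (∀ l ∈ S0, l.Prime ∧ l ≠ p ∧ ¬ p ^ (m + 1) ∣ l - 1) → SparselyLinked p m (S0 : Set ℕ) →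
      ∃ S : Set ℕ, (S0 : Set ℕ) ⊆ S ∧ {l | l ∈ S ∧ p ^ m ∣ l - 1}.Infinite ∧
        (∀ l ∈ S, l.Prime ∧ l ≠ p ∧ ¬ p ^ (m + 1) ∣ l - 1) ∧ SparselyLinked p m S ∧
        ∀ n : ℕ, AllTrivial p m n S) := by
  refine ⟨fun p _ m n hm S hS χ hχ hJ => main1 p m n hm S hS χ hχ hJ,
    fun p _ m hm S0 hS0 hlink => ?_⟩
  obtain ⟨S, h1, h2, h3, h4⟩ := extend p m hm S0 hS0 hlink
  exact ⟨S, h1, h2, h3, h4, fun n => main2 p m n hm S h3 h4⟩

end Pool.Agent.Results.MP_f68ac8_nt.InfiniteRamification
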