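import Pool.Agent.Q315.FM.Most

/-!
# The tame Fontaine-Mazur conjecture in all dimensions for most sets of five primes

Let `m ≥ 2`, and let `𝒫(x)` be the set of the prime numbers up to `x` congruent to `1 + 2 ^ m` modulo `2 ^ (m + 1)` (to `5` modulo
`8`, if `m = 2`). For at least `253/256 - ε` of all `5`-tuples of primes in `𝒫(x)`, if `x` is large, the following holds in all
dimensions `n` at once (`TameFM`). Let `S` be a finite set of odd primes, not congruent to `1` modulo `2 ^ (m + 1)`, such that the
members of `S` congruent to `1` modulo `2 ^ m` belong to the tuple. Let `A` be any Noetherian local ring of residue characteristic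
`2`. Then every continuous representation of the absolute Galois group of `ℚ` in `GL_n(A)` which is unramified outside `S` (in
particular at the prime `2`), and trivial modulo `2 ^ m` on the inertia groups at the primes in `S`, has finite image, and it is
trivial if `2` is not a zero divisor in `A`. The Galois group of the maximal `2`-extension of `ℚ` unramified outside five such primes
is infinite (Golod-Shafarevich).

For `k`-tuples, the lower bound is the proportion of the graphs on `k` vertices all of whose induced subgraphs `J` with at least five
vertices have a vertex joined to at most one other vertex of `J`, or to all but at most one, or are the disjoint union or the join of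
two smaller graphs (`goodGraphs`).

Proof. A criterion of the starting library (`Pool.Agent.TH831.NA`) in terms of the graph of the pairs of primes which are quadratic
nonresidues of each other, and a new theorem: all `2 ^ (k (k - 1) / 2)` graphs occur equally often for the `k`-tuples of primes in
`𝒫(x)` (`Pool.Agent.Q315.FM.pattern_freq`), by a bilinear estimate for the Legendre symbols of primes
(`Pool.Agent.Q315.FM.bilinear`), and the prime number theorem in arithmetic progressions.
-/

set_option autoImplicit false

namespace Pool.Agent.Results.MP_f68ac8_nt.MostFiveTuples

open Finset Filter Pool.Agent.Q315.FM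

open Classical in
/-- **Most tuples of primes have the tame Fontaine-Mazur property in all dimensions.** -/
theorem result (m : ℕ) (hm : 2 ≤ m) (ε : ℝ) (hε : 0 < ε) :
    (∀ᶠ x : ℕ in atTop, (253 / 256 - ε) * ((cl m x).card : ℝ) ^ 5 ≤
      (((tup 5 (cl m x)).filter fun t => Function.Injective t ∧ ∀ n, TameFM 2 m n (Set.range t)).card : ℝ)) ∧
    ∀ k : ℕ, ∀ᶠ x : ℕ in atTop, ((goodGraphs k).card / (allGraphs k).card - ε) * ((cl m x).card : ℝ) ^ k ≤
      (((tup k (cl m x)).filter fun t => Function.Injective t ∧ ∀ n, TameFM 2 m n (Set.range t)).card : ℝ) := by
  refine ⟨?_, fun k => most m k hm ε hε⟩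
  filter_upwards [most m 5 hm ε hε] with x hx
  refine le_trans ?_ hx
  apply mul_le_mul_of_nonneg_right _ (by positivity)
  have h1 : (253 / 256 : ℝ) ≤ (goodGraphs 5).card / (allGraphs 5).card := by
    rw [all_five]
    have : (1012 : ℝ) ≤ (goodGraphs 5).card := by exact_mod_cast good_five
    rw [le_div_iff₀ (by norm_num)]
    push_cast
    linarith
  linarith

end Pool.Agent.Results.MP_f68ac8_nt.MostFiveTuples
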