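import Pool.Agent.Q315.FM.Trip

/-!
# The tame Fontaine-Mazur conjecture in all dimensions for most triples of primes, and for a positive proportion of the `k`-tuples

Let `p ^ m > 2` (for example `p` odd and `m = 1`) and let `𝒫(x)` be the set of the prime numbers `l ≤ x` with `p ^ m ∣ l - 1` and
`p ^ (m + 1) ∤ l - 1`. Let `T` be a set of primes in `𝒫(x)`. We say that `T` has the tame Fontaine-Mazur property if the following
holds for ALL `n`.

* `TameFM`: let `S` be a finite set of primes different from `p` and not congruent to `1` modulo `p ^ (m + 1)`, whose members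
  congruent to `1` modulo `p ^ m` belong to `T`, and let `A` be any Noetherian local ring of residue characteristic `p`. Every
  continuous representation of the absolute Galois group of `ℚ` in `GL_n(A)` which is unramified outside `S` and trivial modulo
  `p ^ m` on the inertia groups at the primes in `S` has finite image, and it is trivial if `p` is not a zero divisor in `A`.
* `TameInf`: if `A` is a discrete valuation ring of characteristic zero, then it is trivial for infinite `S` also.

The theorem: at least `1 - (p - 1) / p ^ 3 - ε` of the triples of primes in `𝒫(x)` have this property, if `x` is large (`25/27` for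
`p = 3`, `121/125` for `p = 5`), and for every `k ≥ 3` the proportion of the `k`-tuples with this property is at least
`(1 - (p - 1) / p ^ 3) ∏ (1 + i (p - 1)) / p ^ i - ε`, the product over `3 ≤ i < k`. For odd `p` and `k ≥ 4` the Galois group of the
maximal `p`-extension of `ℚ` unramified outside `k` such primes is infinite (Golod-Shafarevich).

Proof. Criteria of the starting library (`Pool.Agent.TH831.NA.noSol_triple`, `noSol_row`) and a new theorem on the rows of `p`-th power
residue symbols `(χ_{l_1}(a), …, χ_{l_k}(a))`: for any sets `R(l_1, …, l_k)` of rows the number of the `(k + 1)`-tuples `(a, l_1, …, l_k)`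
with row in `R` is asymptotically the expected one (`Pool.Agent.Q315.FM.rows`), by a bilinear estimate (`Pool.Agent.Q315.FM.bilin`)
from the multiplicative large sieve of the starting library.
-/

set_option autoImplicit false

namespace Pool.Agent.Results.MP_f68ac8_nt.MostTriples

open Finset Filter Pool.Agent.Q315.FM

open Classical in
/-- **Most triples of primes have the tame Fontaine-Mazur property, and a positive proportion of the `k`-tuples.** -/
theorem result (p : ℕ) [Fact p.Prime] (m : ℕ) (hm : 2 < p ^ m) (ε : ℝ) (hε : 0 < ε) :
    (∀ᶠ x : ℕ in atTop, (1 - ((p : ℝ) - 1) / (p : ℝ) ^ 3 - ε) * ((clp p m x).card : ℝ) ^ 3 ≤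
      (((tup 3 (clp p m x)).filter fun t => Function.Injective t ∧
        ∀ n, TameFM p m n (Set.range t) ∧ TameInf p m n (Set.range t)).card : ℝ)) ∧
    ∀ k : ℕ, 3 ≤ k → ∀ᶠ x : ℕ in atTop,
      ((1 - ((p : ℝ) - 1) / (p : ℝ) ^ 3) * ∏ i ∈ Ico 3 k, (1 + i * ((p : ℝ) - 1)) / (p : ℝ) ^ i - ε) *
        ((clp p m x).card : ℝ) ^ k ≤
      (((tup k (clp p m x)).filter fun t => Function.Injective t ∧
        ∀ n, TameFM p m n (Set.range t) ∧ TameInf p m n (Set.range t)).card : ℝ) := by
  refine ⟨?_, fun k hk => triples_main m hm ε hε k hk⟩
  have h := triples_main (p := p) m hm ε hε 3 le_rfl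
  unfold prop at h
  rw [Ico_self, prod_empty, mul_one] at h
  exact h

end Pool.Agent.Results.MP_f68ac8_nt.MostTriples
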