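import Pool.Agent.Q315.FM.Inf

/-!
# Every infinite set of primes contains an infinite set with the tame Fontaine-Mazur property

Let `p ^ m > 2`, and let `Q` be any infinite set of prime numbers `l` with `p ^ m ∣ l - 1` and `p ^ (m + 1) ∤ l - 1`. Then `Q` has an
infinite subset `P` with the following properties, in all dimensions `n` at once if `p = 2`, and in all dimensions `n < p` if `p` is
odd.

* `TameFM`: let `S` be a finite set of primes different from `p` and not congruent to `1` modulo `p ^ (m + 1)`, whose members
  congruent to `1` modulo `p ^ m` belong to `P`, and let `A` be any Noetherian local ring of residue characteristic `p`. Every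
  continuous representation of the absolute Galois group of `ℚ` in `GL_n(A)` which is unramified outside `S`, and trivial modulo
  `p ^ m` on the inertia groups at the primes in `S`, has finite image; it is trivial if `p` is not a zero divisor in `A`.
* `TameInf`: if `A` is a discrete valuation ring of characteristic zero, then this holds for infinite `S` also: every continuous
  representation in `GL_n(A)` which is unramified outside `S` (possibly ramified at infinitely many primes of `P`) and trivial modulo
  `p ^ m` on the inertia groups at the primes in `S` is trivial.

Proof. By Ramsey's theorem there is an infinite subset where the linking number `χ_j(l)` only depends on whether `l < j` or `l > j`.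
If the two values are equal (as for `p = 2`, by quadratic reciprocity), a criterion of the starting library applies. If they are not, a
new criterion is used (`Pool.Agent.Q315.FM.chain_zero`): for `n < p`, the relations `[N_l, T_l] = T_l` between nilpotent `T_l` and
`N_l = ∑ j, μ l j T_j` force `T = 0` if the rows of two neighbours `x`, `y` differ in the places `x`, `y` only. Indeed `N_x + a T_x = N_y
+ b T_y` for some `a`, `b`, and `N_x + a T_x` is conjugate to `N_x` by the truncated exponential of `T_x`; so all `N_l` have the
same eigenvalues, and an eigenvector for a top eigenvalue is common to all `N_l` and annihilated by all `T_l`.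
-/

set_option autoImplicit false

namespace Pool.Agent.Results.MP_f68ac8_nt.RamseySubsets

open Pool.Agent.Q315.FM

/-- **Every infinite set of primes of the class has an infinite subset with the tame Fontaine-Mazur property.** -/
theorem result (p : ℕ) [Fact p.Prime] (m : ℕ) (hm : 2 < p ^ m) (Q : Set ℕ) (hQ : Q.Infinite)
    (h : ∀ l ∈ Q, l.Prime ∧ p ^ m ∣ l - 1 ∧ ¬ p ^ (m + 1) ∣ l - 1) :
    ∃ P : Set ℕ, P ⊆ Q ∧ P.Infinite ∧ ∀ n : ℕ, p = 2 ∨ n < p → TameFM p m n P ∧ TameInf p m n P :=
  ramsey_subsets p m hm Q hQ h

end Pool.Agent.Results.MP_f68ac8_nt.RamseySubsets
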